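import Mathlib

set_option autoImplicit false

/-!
First-Fit on chordal graphs: for every clique number `k ≥ 2` and every `n ≥ k ^ 2` there is a
chordal graph with `n` vertices and clique number `k` on which First-Fit can be made to use at
least `(1 / 6) k log n` colours.  The graphs are binomial trees blown up by cliques.
-/

namespace Pool.Agent.Results.MP_4aa424_co.FirstFitChordal

open SimpleGraph

/-- `G` is chordal: every cycle `f 0, f 1, …, f (m - 1)` of length `m ≥ 4` has a chord. -/
def IsChordal {V : Type} (G : SimpleGraph V) : Prop :=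
  ∀ (m : ℕ) (f : ZMod m → V), 4 ≤ m → Function.Injective f → (∀ i, G.Adj (f i) (f (i + 1))) →
    ∃ i j, j ≠ i ∧ j ≠ i + 1 ∧ i ≠ j + 1 ∧ G.Adj (f i) (f j)

/-- `c` is the First-Fit colouring of `G` for the ordering of the vertices by `ord`: the colour of
each vertex is the least positive integer not used on an earlier neighbour. -/
def IsFirstFit {V : Type} (G : SimpleGraph V) (ord : V → ℕ) (c : V → ℕ) : Prop :=
  Function.Injective ord ∧
    ∀ v, IsLeast {a | 1 ≤ a ∧ ∀ u, G.Adj u v → ord u < ord v → c u ≠ a} (c v)

/-- The First-Fit chromatic number: the largest number of colours First-Fit uses on `G`, over all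
orderings of the vertices. -/
noncomputable def firstFitNumber {V : Type} (G : SimpleGraph V) : ℕ :=
  sSup {t | ∃ ord c : V → ℕ, IsFirstFit G ord c ∧ t = (Set.range c).ncard}

theorem le_firstFitNumber {n : ℕ} (G : SimpleGraph (Fin n)) (ord c : Fin n → ℕ)
    (h : IsFirstFit G ord c) : (Set.range c).ncard ≤ firstFitNumber G := by
  apply le_csSup
  · refine ⟨n, ?_⟩
    rintro t ⟨ord, c, -, rfl⟩
    calc (Set.range c).ncard = (c '' Set.univ).ncard := by rw [Set.image_univ]
      _ ≤ (Set.univ : Set (Fin n)).ncard := Set.ncard_image_le Set.finite_univ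
      _ = n := by rw [Set.ncard_univ, Nat.card_eq_fintype_card, Fintype.card_fin]
  · exact ⟨ord, c, h, rfl⟩

/-- a wall gives a First-Fit colouring -/
theorem firstFit_of_wall {n : ℕ} (G : SimpleGraph (Fin n)) (lev : Fin n → ℕ)
    (h1 : ∀ v, 1 ≤ lev v) (h2 : ∀ u v, G.Adj u v → lev u ≠ lev v)
    (h3 : ∀ v a, 1 ≤ a → a < lev v → ∃ u, G.Adj u v ∧ lev u = a) (T : ℕ)
    (h4 : ∃ v, lev v = T) : T ≤ firstFitNumber G := by
  have hff : IsFirstFit G (fun v => lev v * n + v) lev := by
    constructor
    · intro u v huv
      simp only at huv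
      have hu := u.2
      have hv := v.2
      have : lev u = lev v := by
        by_contra hne
        rcases Nat.lt_or_gt_of_ne hne with hlt | hlt
        · have : (lev u + 1) * n ≤ lev v * n := Nat.mul_le_mul_right n hlt
          rw [Nat.add_mul] at this
          omega
        · have : (lev v + 1) * n ≤ lev u * n := Nat.mul_le_mul_right n hlt
          rw [Nat.add_mul] at this
          omega
      rw [this] at huv
      ext
      omega
    · intro v
      constructor
      · exact ⟨h1 v, fun u huv _ => h2 u v huv⟩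
      · rintro a ⟨ha1, ha2⟩
        by_contra hlt
        push Not at hlt
        obtain ⟨u, hu1, hu2⟩ := h3 v a ha1 hlt
        refine ha2 u hu1 ?_ hu2
        show lev u * n + u < lev v * n + v
        have hu := u.2
        have : (lev u + 1) * n ≤ lev v * n := Nat.mul_le_mul_right n (by omega)
        rw [Nat.add_mul] at this
        omega
  refine le_trans ?_ (le_firstFitNumber G _ lev hff)
  obtain ⟨v, hv⟩ := h4
  have hsub : (Finset.Icc 1 T : Set ℕ) ⊆ Set.range lev := by
    intro a ha
    simp only [Finset.coe_Icc, Set.mem_Icc] at ha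
    rcases Nat.lt_or_ge a T with hlt | hge
    · obtain ⟨u, -, hu⟩ := h3 v a ha.1 (by omega)
      exact ⟨u, hu⟩
    · exact ⟨v, by omega⟩
  calc T = ((Finset.Icc 1 T : Finset ℕ) : Set ℕ).ncard := by
        rw [Set.ncard_coe_finset, Nat.card_Icc]; omega
    _ ≤ (Set.range lev).ncard := Set.ncard_le_ncard hsub (Set.finite_range lev)

/-! ### The graphs -/

/-- the parent map of the forest: below `2 ^ t` clear the highest set bit, above it do nothing -/
def par (t x : ℕ) : ℕ := if x < 2 ^ t then x - 2 ^ (Nat.size x - 1) else x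

theorem par_le (t x : ℕ) : par t x ≤ x := by
  unfold par
  split_ifs
  · exact Nat.sub_le _ _
  · exact le_rfl

theorem par_lt {t x : ℕ} (h : x < 2 ^ t) : par t x < 2 ^ t := lt_of_le_of_lt (par_le t x) h

theorem size_add {x i : ℕ} (h : x < 2 ^ i) : Nat.size (x + 2 ^ i) = i + 1 := by
  apply le_antisymm
  · rw [Nat.size_le, pow_succ]; omega
  · exact Nat.lt_size.mpr (by omega)

theorem par_add {t x i : ℕ} (h : x < 2 ^ i) (hi : i < t) : par t (x + 2 ^ i) = x := by
  have h1 : x + 2 ^ i < 2 ^ t := by
    have : 2 ^ (i + 1) ≤ 2 ^ t := Nat.pow_le_pow_right (by norm_num) hi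
    rw [pow_succ] at this
    omega
  unfold par
  rw [if_pos h1, size_add h]
  simp

theorem size_par {t x : ℕ} (hx : x < 2 ^ t) (h0 : par t x ≠ x) :
    Nat.size (par t x) < Nat.size x := by
  have hx0 : x ≠ 0 := by
    rintro rfl
    apply h0
    unfold par
    simp
  have hs : 0 < Nat.size x := Nat.size_pos.mpr (Nat.pos_of_ne_zero hx0)
  unfold par
  rw [if_pos hx]
  have h1 : x < 2 ^ Nat.size x := Nat.lt_size_self x
  have h3 : 2 ^ Nat.size x = 2 * 2 ^ (Nat.size x - 1) := by
    rw [← pow_succ']; congr 1; omega
  have h5 : 0 < 2 ^ (Nat.size x - 1) := by positivity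
  have h4 : Nat.size (x - 2 ^ (Nat.size x - 1)) ≤ Nat.size x - 1 := by
    rw [Nat.size_le]
    omega
  omega

/-- the blob of the vertex `v` -/
def blob (q t k v : ℕ) : ℕ :=
  if v < q * 2 ^ t then v / q else if v < q * 2 ^ t + k then 2 ^ t else v + 2 ^ t

/-- the level of the vertex `v` -/
def lev (q t k v : ℕ) : ℕ :=
  if v < q * 2 ^ t then q * (t - Nat.size (v / q)) + v % q + 1
  else if v < q * 2 ^ t + k then v - q * 2 ^ t + 1 else 1

/-- two distinct vertices are adjacent if their blobs are equal, or one is the parent of the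
other -/
def gr (q t k n : ℕ) : SimpleGraph (Fin n) where
  Adj u v := u ≠ v ∧ (blob q t k u = blob q t k v ∨ par t (blob q t k u) = blob q t k v ∨
    par t (blob q t k v) = blob q t k u)
  symm := ⟨fun u v h => ⟨h.1.symm, by tauto⟩⟩
  loopless := ⟨fun u h => h.1 rfl⟩

theorem gr_adj {q t k n : ℕ} {u v : Fin n} : (gr q t k n).Adj u v ↔
    u ≠ v ∧ (blob q t k u = blob q t k v ∨ par t (blob q t k u) = blob q t k v ∨
      par t (blob q t k v) = blob q t k u) := Iff.rfl

section

variable {q t k n : ℕ}

theorem blob_lt_iff (hq : 0 < q) (v : ℕ) : blob q t k v < 2 ^ t ↔ v < q * 2 ^ t := by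
  unfold blob
  split_ifs with h1 h2
  · simp only [h1, iff_true]
    rw [Nat.div_lt_iff_lt_mul hq]
    linarith [Nat.mul_comm q (2 ^ t)]
  · simp [h1]
  · simp only [h1, iff_false]; omega

theorem clique_cover (S : Finset (Fin n)) (hS : (gr q t k n).IsClique S) (hne : S.Nonempty) :
    ∃ b, ∀ v ∈ S, blob q t k v = b ∨ blob q t k v = par t b := by
  obtain ⟨w, hw, hmax⟩ := S.exists_max_image (fun v => blob q t k v) hne
  refine ⟨blob q t k w, fun v hv => ?_⟩
  by_cases hvw : v = w
  · left; rw [hvw]
  · obtain ⟨-, h | h | h⟩ := gr_adj.1 (hS (Finset.mem_coe.mpr hv) (Finset.mem_coe.mpr hw) hvw)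
    · left; exact h
    · left
      have h1 := par_le t (blob q t k v)
      have h2 := hmax v hv
      omega
    · right; exact h.symm

theorem fiber_small (hq : 0 < q) (b : ℕ) (hb : b < 2 ^ t) :
    (Finset.univ.filter fun v : Fin n => blob q t k v = b).card ≤ q := by
  calc (Finset.univ.filter fun v : Fin n => blob q t k v = b).card
      ≤ (Finset.range q).card := by
        apply Finset.card_le_card_of_injOn (fun v : Fin n => (v : ℕ) % q)
        · intro v _
          simp only [Finset.coe_range, Set.mem_Iio]
          exact Nat.mod_lt _ hq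
        · intro u hu v hv huv
          simp only [Finset.coe_filter, Finset.mem_univ, true_and, Set.mem_ofPred_eq] at hu hv
          have hu1 := (blob_lt_iff (t := t) (k := k) hq (u : ℕ)).1 (by omega)
          have hv1 := (blob_lt_iff (t := t) (k := k) hq (v : ℕ)).1 (by omega)
          unfold blob at hu hv
          rw [if_pos hu1] at hu
          rw [if_pos hv1] at hv
          simp only at huv
          ext
          rw [← Nat.div_add_mod (u : ℕ) q, ← Nat.div_add_mod (v : ℕ) q, huv, hu, hv]
    _ = q := Finset.card_range q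

theorem fiber_large (hq : 0 < q) (hk : 1 ≤ k) (b : ℕ) (hb : ¬ b < 2 ^ t) :
    (Finset.univ.filter fun v : Fin n => blob q t k v = b).card ≤ k := by
  calc (Finset.univ.filter fun v : Fin n => blob q t k v = b).card
      ≤ (Finset.range k).card := by
        apply Finset.card_le_card_of_injOn
          (fun v : Fin n => if (v : ℕ) < q * 2 ^ t + k then (v : ℕ) - q * 2 ^ t else 0)
        · intro v hv
          simp only [Finset.coe_filter, Finset.mem_univ, true_and, Set.mem_ofPred_eq] at hv
          simp only [Finset.coe_range, Set.mem_Iio]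
          split_ifs <;> omega
        · intro u hu v hv huv
          simp only [Finset.coe_filter, Finset.mem_univ, true_and, Set.mem_ofPred_eq] at hu hv
          have hu1 : ¬ (u : ℕ) < q * 2 ^ t := fun h =>
            hb (hu ▸ (blob_lt_iff (t := t) (k := k) hq (u : ℕ)).2 h)
          have hv1 : ¬ (v : ℕ) < q * 2 ^ t := fun h =>
            hb (hv ▸ (blob_lt_iff (t := t) (k := k) hq (v : ℕ)).2 h)
          unfold blob at hu hv
          rw [if_neg hu1] at hu
          rw [if_neg hv1] at hv
          simp only at huv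
          ext
          split_ifs at hu hv huv <;> omega
    _ = k := Finset.card_range k

theorem clique_card (hq : 0 < q) (hqk : 2 * q ≤ k) (S : Finset (Fin n))
    (hS : (gr q t k n).IsClique S) : S.card ≤ k := by
  classical
  rcases S.eq_empty_or_nonempty with rfl | hne
  · simp
  obtain ⟨b, hb⟩ := clique_cover S hS hne
  by_cases hbt : b < 2 ^ t
  · have hsub : S ⊆ (Finset.univ.filter fun v : Fin n => blob q t k v = b) ∪
        (Finset.univ.filter fun v : Fin n => blob q t k v = par t b) := by
      intro v hv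
      simp only [Finset.mem_union, Finset.mem_filter, Finset.mem_univ, true_and]
      exact hb v hv
    have h1 := Finset.card_le_card hsub
    have h2 := Finset.card_union_le (Finset.univ.filter fun v : Fin n => blob q t k v = b)
      (Finset.univ.filter fun v : Fin n => blob q t k v = par t b)
    have h3 := fiber_small (q := q) (t := t) (k := k) (n := n) hq b hbt
    have h4 := fiber_small (q := q) (t := t) (k := k) (n := n) hq (par t b) (par_lt hbt)
    omega
  · have hpar : par t b = b := by unfold par; rw [if_neg hbt]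
    have hsub : S ⊆ Finset.univ.filter fun v : Fin n => blob q t k v = b := by
      intro v hv
      simp only [Finset.mem_filter, Finset.mem_univ, true_and]
      rcases hb v hv with h | h
      · exact h
      · rw [h, hpar]
    exact (Finset.card_le_card hsub).trans (fiber_large hq (by omega) b hbt)

theorem cliqueNum_eq (hq : 0 < q) (hqk : 2 * q ≤ k) (hn : q * 2 ^ t + k ≤ n) :
    (gr q t k n).cliqueNum = k := by
  classical
  apply le_antisymm
  · obtain ⟨S, hS⟩ := (gr q t k n).exists_isNClique_cliqueNum
    rw [← hS.card_eq]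
    exact clique_card hq hqk S hS.isClique
  · let f : Fin k ↪ Fin n := ⟨fun i => ⟨q * 2 ^ t + i, by omega⟩, fun i j hij => by
      simp only [Fin.mk.injEq] at hij
      ext
      omega⟩
    have hcl : (gr q t k n).IsClique ((Finset.univ.map f : Finset (Fin n)) : Set (Fin n)) := by
      intro u hu v hv huv
      simp only [Finset.coe_map, Finset.coe_univ, Set.image_univ, Set.mem_range] at hu hv
      obtain ⟨i, rfl⟩ := hu
      obtain ⟨j, rfl⟩ := hv
      refine gr_adj.2 ⟨huv, Or.inl ?_⟩
      show blob q t k (q * 2 ^ t + i) = blob q t k (q * 2 ^ t + j)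
      have hi := i.2
      have hj := j.2
      unfold blob
      rw [if_neg (by omega), if_pos (by omega), if_neg (by omega), if_pos (by omega)]
    have := hcl.card_le_cliqueNum
    simpa using this

theorem chordal : IsChordal (gr q t k n) := by
  intro m f hm hf hadj
  have : NeZero m := ⟨by omega⟩
  obtain ⟨i, -, hi⟩ := (Finset.univ : Finset (ZMod m)).exists_max_image
    (fun i => blob q t k (f i)) ⟨0, Finset.mem_univ _⟩
  have hsub : ((i - 1) + 1 : ZMod m) = i := by ring
  have hprev : (gr q t k n).Adj (f (i - 1)) (f i) := by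
    have := hadj (i - 1)
    rwa [hsub] at this
  have hnext := hadj i
  have hcast : ∀ a : ℕ, 0 < a → a < m → ((a : ℕ) : ZMod m) ≠ 0 := by
    intro a ha1 ha2 h
    rw [ZMod.natCast_eq_zero_iff] at h
    exact absurd (Nat.le_of_dvd ha1 h) (by omega)
  have h2 : (2 : ZMod m) ≠ 0 := by exact_mod_cast hcast 2 (by norm_num) (by omega)
  have h3 : (3 : ZMod m) ≠ 0 := by exact_mod_cast hcast 3 (by norm_num) (by omega)
  have h1 : (1 : ZMod m) ≠ 0 := by exact_mod_cast hcast 1 (by norm_num) (by omega)
  have hne : i - 1 ≠ i + 1 := by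
    intro h
    apply h2
    have : (2 : ZMod m) = (i + 1) - (i - 1) := by ring
    rw [this, ← h]; ring
  refine ⟨i - 1, i + 1, hne.symm, ?_, ?_, ?_⟩
  · intro h
    rw [hsub] at h
    apply h1
    have : (1 : ZMod m) = (i + 1) - i := by ring
    rw [this, h]; ring
  · intro h
    apply h3
    have : (3 : ZMod m) = (i + 1 + 1) - (i - 1) := by ring
    rw [this, ← h]; ring
  · refine gr_adj.2 ⟨fun h => hne (hf h), ?_⟩
    have key : ∀ v, (gr q t k n).Adj v (f i) → blob q t k v ≤ blob q t k (f i) →
        blob q t k v = blob q t k (f i) ∨ blob q t k v = par t (blob q t k (f i)) := by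
      intro v hadj' hle
      obtain ⟨-, h | h | h⟩ := gr_adj.1 hadj'
      · exact Or.inl h
      · left
        have := par_le t (blob q t k v)
        omega
      · exact Or.inr h.symm
    have k1 := key _ hprev (hi _ (Finset.mem_univ _))
    have k2 := key _ hnext.symm (hi _ (Finset.mem_univ _))
    rcases k1 with k1 | k1 <;> rcases k2 with k2 | k2
    · left; rw [k1, k2]
    · right; left; rw [k1, k2]
    · right; right; rw [k1, k2]
    · left; rw [k1, k2]

theorem lev_pos (v : ℕ) : 1 ≤ lev q t k v := by
  unfold lev; split_ifs <;> omega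

theorem lev_range (hq : 0 < q) (a b : ℕ) (c d : ℕ) (hc : c < q) (hd : d < q)
    (h : q * a + c + 1 = q * b + d + 1) : a = b ∧ c = d := by
  have h' : q * a + c = q * b + d := by omega
  have e1 : (q * a + c) / q = a := by
    rw [Nat.mul_add_div hq, Nat.div_eq_of_lt hc, add_zero]
  have e2 : (q * b + d) / q = b := by
    rw [Nat.mul_add_div hq, Nat.div_eq_of_lt hd, add_zero]
  have : a = b := by rw [← e1, ← e2, h']
  subst this
  exact ⟨rfl, by omega⟩

theorem lev_ne (hq : 0 < q) (u v : Fin n) (h : (gr q t k n).Adj u v) :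
    lev q t k u ≠ lev q t k v := by
  obtain ⟨hne, h⟩ := gr_adj.1 h
  have hne' : (u : ℕ) ≠ v := fun h => hne (Fin.ext h)
  have par_big : ∀ b, ¬ b < 2 ^ t → par t b = b := fun b hb => by unfold par; rw [if_neg hb]
  -- a symmetric statement for the case of a parent
  have key : ∀ x y : ℕ, x ≠ y → (blob q t k x = blob q t k y ∨
      par t (blob q t k x) = blob q t k y) → lev q t k x ≠ lev q t k y := by
    intro x y hxy hh heq
    by_cases hx : x < q * 2 ^ t
    · have hbx := (blob_lt_iff (t := t) (k := k) hq x).2 hx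
      have hby : blob q t k y < 2 ^ t := by
        rcases hh with hh | hh
        · omega
        · rw [← hh]; exact par_lt hbx
      have hy := (blob_lt_iff (t := t) (k := k) hq y).1 hby
      unfold lev at heq
      rw [if_pos hx, if_pos hy] at heq
      obtain ⟨e1, e2⟩ := lev_range hq _ _ _ _ (Nat.mod_lt x hq) (Nat.mod_lt y hq) heq
      unfold blob at hh hbx hby
      rw [if_pos hx] at hh hbx
      rw [if_pos hy] at hh hby
      have sx : Nat.size (x / q) ≤ t := Nat.size_le.mpr hbx
      have sy : Nat.size (y / q) ≤ t := Nat.size_le.mpr hby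
      have hsize : Nat.size (x / q) = Nat.size (y / q) := by omega
      have hdiv : x / q = y / q := by
        rcases hh with hh | hh
        · exact hh
        · by_contra hcon
          have := size_par hbx (by rw [hh]; exact fun h => hcon h.symm)
          rw [hh] at this
          omega
      apply hxy
      rw [← Nat.div_add_mod x q, ← Nat.div_add_mod y q, hdiv, e2]
    · have hbx : ¬ blob q t k x < 2 ^ t := fun h => hx ((blob_lt_iff hq x).1 h)
      have hb : blob q t k x = blob q t k y := by
        rcases hh with hh | hh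
        · exact hh
        · rwa [par_big _ hbx] at hh
      have hy : ¬ y < q * 2 ^ t := fun h => hbx (hb ▸ (blob_lt_iff hq y).2 h)
      unfold blob at hb
      rw [if_neg hx, if_neg hy] at hb
      unfold lev at heq
      rw [if_neg hx, if_neg hy] at heq
      split_ifs at hb heq <;> omega
  rcases h with h | h | h
  · exact key u v hne' (Or.inl h)
  · exact key u v hne' (Or.inr h)
  · exact (key v u hne'.symm (Or.inr h)).symm

theorem lev_exists (hq : 0 < q) (hn : q * 2 ^ t + k ≤ n) (v : Fin n) (a : ℕ) (ha1 : 1 ≤ a)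
    (ha : a < lev q t k v) : ∃ u : Fin n, (gr q t k n).Adj u v ∧ lev q t k u = a := by
  by_cases hv : (v : ℕ) < q * 2 ^ t
  · have hbv := (blob_lt_iff (t := t) (k := k) hq (v : ℕ)).2 hv
    have hlev : lev q t k v = q * (t - Nat.size (v / q)) + v % q + 1 := by
      unfold lev; rw [if_pos hv]
    have hblob : blob q t k v = v / q := by unfold blob; rw [if_pos hv]
    rw [hlev] at ha
    rw [hblob] at hbv
    set x := (v : ℕ) / q with hx
    have sx : Nat.size x ≤ t := Nat.size_le.mpr hbv
    -- write `a - 1 = q * i + p`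
    obtain ⟨i, hi⟩ : ∃ i, i = (a - 1) / q := ⟨_, rfl⟩
    obtain ⟨p, hp⟩ : ∃ p, p = (a - 1) % q := ⟨_, rfl⟩
    have hpq : p < q := by rw [hp]; exact Nat.mod_lt _ hq
    have hai : a = q * i + p + 1 := by
      have := Nat.div_add_mod (a - 1) q
      rw [← hi, ← hp] at this
      omega
    have hmodlt : (v : ℕ) % q < q := Nat.mod_lt _ hq
    have hile : i ≤ t - Nat.size x := by
      by_contra hcon
      push Not at hcon
      have h1 : q * (t - Nat.size x + 1) ≤ q * i := Nat.mul_le_mul_left q hcon
      rw [Nat.mul_add] at h1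
      omega
    have mk : ∀ y, y < 2 ^ t → (y = x ∨ par t y = x) → Nat.size y = t - i →
        q * y + p ≠ v → ∃ u : Fin n, (gr q t k n).Adj u v ∧ lev q t k u = a := by
      intro y hy hyx hsz hne
      have hu : q * y + p < q * 2 ^ t := by
        have : q * (y + 1) ≤ q * 2 ^ t := Nat.mul_le_mul_left q hy
        rw [Nat.mul_add] at this
        omega
      have hdiv : (q * y + p) / q = y := by
        rw [Nat.mul_add_div hq, Nat.div_eq_of_lt hpq, add_zero]
      have hmod : (q * y + p) % q = p := by
        rw [Nat.mul_add_mod, Nat.mod_eq_of_lt hpq]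
      have hbu : blob q t k (q * y + p) = y := by unfold blob; rw [if_pos hu, hdiv]
      refine ⟨⟨q * y + p, by omega⟩, gr_adj.2 ⟨fun h => hne (by rw [← h]), ?_⟩, ?_⟩
      · show blob q t k (q * y + p) = blob q t k v ∨ par t (blob q t k (q * y + p)) =
          blob q t k v ∨ par t (blob q t k v) = blob q t k (q * y + p)
        rw [hbu, hblob]
        rcases hyx with h | h
        · exact Or.inl h
        · exact Or.inr (Or.inl h)
      · show lev q t k (q * y + p) = a
        unfold lev
        rw [if_pos hu, hdiv, hmod, hsz, hai]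
        congr 3
        omega
    rcases Nat.lt_or_ge i (t - Nat.size x) with hlt | hge
    · -- the child `x + 2 ^ (t - i - 1)`
      have hxlt : x < 2 ^ (t - i - 1) := by
        rw [← Nat.size_le]; omega
      have h1 : x + 2 ^ (t - i - 1) < 2 ^ t := by
        have : 2 ^ (t - i - 1 + 1) ≤ 2 ^ t := Nat.pow_le_pow_right (by norm_num) (by omega)
        rw [pow_succ] at this
        omega
      refine mk (x + 2 ^ (t - i - 1)) h1 (Or.inr (par_add hxlt (by omega))) ?_ ?_
      · rw [size_add hxlt]; omega
      · intro h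
        have h2 : (v : ℕ) / q = x + 2 ^ (t - i - 1) := by
          rw [← h, Nat.mul_add_div hq, Nat.div_eq_of_lt hpq, add_zero]
        have h3 : 0 < 2 ^ (t - i - 1) := by positivity
        omega
    · have hi' : i = t - Nat.size x := by omega
      refine mk x hbv (Or.inl rfl) (by omega) ?_
      intro h
      have hv' := Nat.div_add_mod (v : ℕ) q
      rw [← hx] at hv'
      rw [hai, hi'] at ha
      omega
  · by_cases hv2 : (v : ℕ) < q * 2 ^ t + k
    · have hlev : lev q t k v = v - q * 2 ^ t + 1 := by
        unfold lev; rw [if_neg hv, if_pos hv2]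
      rw [hlev] at ha
      refine ⟨⟨q * 2 ^ t + (a - 1), by omega⟩, gr_adj.2 ⟨fun h => ?_, Or.inl ?_⟩, ?_⟩
      · have : q * 2 ^ t + (a - 1) = v := congrArg Fin.val h
        omega
      · show blob q t k (q * 2 ^ t + (a - 1)) = blob q t k v
        unfold blob
        rw [if_neg (by omega), if_pos (by omega), if_neg hv, if_pos hv2]
      · show lev q t k (q * 2 ^ t + (a - 1)) = a
        unfold lev
        rw [if_neg (by omega), if_pos (by omega)]
        omega
    · have hlev : lev q t k v = 1 := by unfold lev; rw [if_neg hv, if_neg hv2]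
      omega

theorem ff_lower (hq : 0 < q) (hn : q * 2 ^ t + k ≤ n) :
    q * (t + 1) ≤ firstFitNumber (gr q t k n) := by
  refine firstFit_of_wall _ (fun v => lev q t k v) (fun v => lev_pos _)
    (fun u v h => lev_ne hq u v h) (fun v a h1 h2 => lev_exists hq hn v a h1 h2) _ ?_
  have h2 : 0 < 2 ^ t := by positivity
  have h1 : q ≤ q * 2 ^ t := Nat.le_mul_of_pos_right q h2
  refine ⟨⟨q - 1, by omega⟩, ?_⟩
  show lev q t k (q - 1) = q * (t + 1)
  unfold lev
  rw [if_pos (by omega), Nat.div_eq_of_lt (by omega), Nat.mod_eq_of_lt (by omega), Nat.size_zero,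
    Nat.mul_add, Nat.sub_zero]
  omega

end

/-- For all `k ≥ 2` and `n ≥ k ^ 2` there is a chordal graph on `n` vertices with clique number
exactly `k` and First-Fit chromatic number at least `(1 / 6) k log n` (natural logarithm).
For `k = 1` the graphs are edgeless and First-Fit uses one colour. -/
theorem result :
    (∀ k : ℕ, 2 ≤ k → ∀ n : ℕ, k ^ 2 ≤ n → ∃ G : SimpleGraph (Fin n),
      IsChordal G ∧ G.cliqueNum = k ∧ (1 / 6 : ℝ) * k * Real.log n ≤ firstFitNumber G) ∧
    ∀ (n : ℕ) (G : SimpleGraph (Fin n)), G.cliqueNum = 1 → firstFitNumber G = 1 := by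
  constructor
  · intro k hk n hn
    have hkk : 2 * k ≤ k ^ 2 := by nlinarith
    set q := k / 2 with hq
    have hq1 : 0 < q := by omega
    have hqk : 2 * q ≤ k := by omega
    have hkq : k ≤ 3 * q := by omega
    set t := Nat.log 2 ((n - k) / q) with ht
    have hdiv : (n - k) / q ≠ 0 := by
      have : 1 ≤ (n - k) / q := by
        rw [Nat.le_div_iff_mul_le hq1]; omega
      omega
    have h1 : 2 ^ t ≤ (n - k) / q := Nat.pow_log_le_self 2 hdiv
    have h2 : (n - k) / q < 2 ^ (t + 1) := Nat.lt_pow_succ_log_self (by norm_num) _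
    have hfit : q * 2 ^ t + k ≤ n := by
      have : q * 2 ^ t ≤ n - k := by
        calc q * 2 ^ t ≤ q * ((n - k) / q) := Nat.mul_le_mul_left q h1
          _ ≤ n - k := Nat.mul_div_le _ _
      omega
    refine ⟨gr q t k n, chordal, cliqueNum_eq hq1 hqk hfit, ?_⟩
    have h3 : q * (t + 1) ≤ firstFitNumber (gr q t k n) := ff_lower hq1 hfit
    have h4 : n - k < 2 ^ (t + 1) * q := by
      rwa [Nat.div_lt_iff_lt_mul hq1] at h2
    -- `n < k * 2 ^ (t + 1)`
    have h5 : n < k * 2 ^ (t + 1) := by
      have : 2 * (n - k) < 2 ^ (t + 1) * (2 * q) := by nlinarith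
      have h6 : 2 ^ (t + 1) * (2 * q) ≤ 2 ^ (t + 1) * k := Nat.mul_le_mul_left _ hqk
      have h7 : 2 ^ (t + 1) * k = k * 2 ^ (t + 1) := Nat.mul_comm _ _
      omega
    -- hence `n < 4 ^ (t + 1)`
    have h6 : n < 4 ^ (t + 1) := by
      by_contra hcon
      push Not at hcon
      have h7 : (2 ^ (t + 1)) ^ 2 ≤ n := by
        rw [← pow_mul, Nat.mul_comm, pow_mul]; norm_num; exact hcon
      have h8 : n * n < (k * 2 ^ (t + 1)) * (k * 2 ^ (t + 1)) := Nat.mul_lt_mul'' h5 h5
      have h9 : (k * 2 ^ (t + 1)) * (k * 2 ^ (t + 1)) = k ^ 2 * (2 ^ (t + 1)) ^ 2 := by ring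
      have h10 : k ^ 2 * (2 ^ (t + 1)) ^ 2 ≤ n * n := Nat.mul_le_mul hn h7
      omega
    have hn0 : (0 : ℝ) < n := by
      have : 0 < n := by nlinarith
      exact_mod_cast this
    have h7 : Real.log n ≤ (t + 1) * Real.log 4 := by
      have : (n : ℝ) ≤ (4 : ℝ) ^ (t + 1) := by exact_mod_cast h6.le
      calc Real.log n ≤ Real.log ((4 : ℝ) ^ (t + 1)) := Real.log_le_log hn0 this
        _ = (t + 1) * Real.log 4 := by rw [Real.log_pow]; push_cast; ring
    have h8 : Real.log 4 ≤ 2 := by
      have h9 : Real.log 4 = 2 * Real.log 2 := by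
        rw [show (4 : ℝ) = 2 ^ 2 by norm_num, Real.log_pow]; norm_num
      have h10 := Real.log_two_lt_d9
      rw [h9]; linarith
    have h9 : (k : ℝ) ≤ 3 * q := by exact_mod_cast hkq
    have h10 : ((q * (t + 1) : ℕ) : ℝ) ≤ firstFitNumber (gr q t k n) := by exact_mod_cast h3
    push_cast at h10
    have h11 : Real.log n ≤ 2 * (t + 1) := by
      have : (0 : ℝ) ≤ t + 1 := by positivity
      nlinarith
    have h12 : (0 : ℝ) ≤ Real.log n := Real.log_natCast_nonneg n
    calc (1 / 6 : ℝ) * k * Real.log n ≤ (1 / 6 : ℝ) * (3 * q) * (2 * (t + 1)) := by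
          apply mul_le_mul _ h11 h12 (by positivity)
          linarith
      _ = q * (t + 1) := by ring
      _ ≤ _ := h10
  · intro n G hG
    have hno : ∀ u v, ¬ G.Adj u v := by
      intro u v huv
      have hcl : G.IsClique ((({u, v} : Finset (Fin n))) : Set (Fin n)) := by
        simp only [Finset.coe_insert, Finset.coe_singleton]
        rw [SimpleGraph.isClique_pair]
        exact fun _ => huv
      have := hcl.card_le_cliqueNum
      rw [Finset.card_pair huv.ne, hG] at this
      omega
    have hn : 0 < n := by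
      by_contra hcon
      have h0 : n = 0 := by omega
      subst h0
      obtain ⟨S, hS⟩ := G.exists_isNClique_cliqueNum
      have := hS.card_eq
      rw [hG, Finset.eq_empty_of_isEmpty S] at this
      simp at this
    have hc : ∀ ord c : Fin n → ℕ, IsFirstFit G ord c → ∀ v, c v = 1 := by
      intro ord c h v
      refine (h.2 v).unique ⟨⟨le_rfl, fun u huv => absurd huv (hno u v)⟩, fun a ha => ha.1⟩
    have hset : {t | ∃ ord c : Fin n → ℕ, IsFirstFit G ord c ∧ t = (Set.range c).ncard} = {1} := by
      ext s
      simp only [Set.mem_ofPred_eq, Set.mem_singleton_iff]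
      have hr : ∀ c : Fin n → ℕ, (∀ v, c v = 1) → (Set.range c).ncard = 1 := by
        intro c hcc
        have : Set.range c = {1} := by
          ext y
          constructor
          · rintro ⟨v, rfl⟩; exact hcc v
          · rintro rfl; exact ⟨⟨0, hn⟩, hcc _⟩
        rw [this, Set.ncard_singleton]
      constructor
      · rintro ⟨ord, c, h, rfl⟩
        exact hr c (hc ord c h)
      · rintro rfl
        refine ⟨fun v => v, fun _ => 1, ⟨fun u v h => Fin.ext h, fun v => ⟨⟨le_rfl, fun u huv =>
          absurd huv (hno u v)⟩, fun a ha => ha.1⟩⟩, (hr _ (fun _ => rfl)).symm⟩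
    unfold firstFitNumber
    rw [hset, csSup_singleton]

end Pool.Agent.Results.MP_4aa424_co.FirstFitChordal
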